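import Pool.Agent.H14.QMult

set_option autoImplicit false
set_option maxRecDepth 100000
set_option synthInstance.maxSize 4096

namespace Pool.Agent.Results.MP_558aee_co.Gap

open Matrix Pool.Agent.H14.Q

def M : Matrix (Fin 10) (Fin 10) ℤ := !![-1, 2, 0, 0, 2, -1, 0, 2, 2, 0; 2, -1, 2, 0, 0, 0, -1, 0, 2, 2; 0, 2, -1, 2, 0, 2, 0, -1, 0, 2; 0, 0, 2, -1, 2, 2, 2, 0, -1, 0; 2, 0, 0, 2, -1, 0, 2, 2, 0, -1; -1, 0, 2, 2, 0, 1, -2, 0, 0, -2; 0, -1, 0, 2, 2, -2, 1, -2, 0, 0; 2, 0, -1, 0, 2, 0, -2, 1, -2, 0; 2, 2, 0, -1, 0, 0, 0, -2, 1, -2; 0, 2, 2, 0, -1, -2, 0, 0, -2, 1]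

def W : Matrix (Fin 4) (Fin 10) ℤ := !![0, 1, 0, 0, 0, 1, 1, 1, 2, 2; 0, 1, 0, 1, 1, -1, -2, -1, 1, 1; 0, -1, 1, 1, 0, -1, 0, 1, 0, -1; 1, -1, 0, 0, 1, 1, 0, -1, -1, 0]

def G : SimpleGraph (Fin 10) where
  Adj i j := i ≠ j ∧ M i j ≠ 0
  symm := ⟨by decide +kernel⟩
  loopless := ⟨fun _ h => h.1 rfl⟩

instance : DecidableRel G.Adj := fun a b => inferInstanceAs (Decidable (a ≠ b ∧ M a b ≠ 0))

theorem forced (k : ℕ) (hk : k ≤ 10) (h : Achieves G k) : k = 5 := by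
  obtain ⟨A, hA, a, b, hab, hc⟩ := h
  obtain ⟨h2, ht⟩ := quad_of_charpoly hA.1 a b _ _ hc
  have d0 := diag_sum G hA _ _ h2 0 5 (by decide +kernel) (by decide +kernel)
  have d1 := diag_sum G hA _ _ h2 1 6 (by decide +kernel) (by decide +kernel)
  have d2 := diag_sum G hA _ _ h2 2 7 (by decide +kernel) (by decide +kernel)
  have d3 := diag_sum G hA _ _ h2 3 8 (by decide +kernel) (by decide +kernel)
  have d4 := diag_sum G hA _ _ h2 4 9 (by decide +kernel) (by decide +kernel)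
  rw [Nat.cast_sub hk] at ht
  simp only [trace, diag, Fin.sum_univ_succ, Fin.sum_univ_zero] at ht
  have e : A 0 0 + (A 1 1 + (A 2 2 + (A 3 3 + (A 4 4 + (A 5 5 + (A 6 6 + (A 7 7 + (A 8 8 +
    (A 9 9 + 0))))))))) = ((10 : ℕ) - k : ℝ) * a + k * b := ht
  have h3 : ((k : ℝ) - 5) * (a - b) = 0 := by
    push_cast at e
    linear_combination e - d0 - d1 - d2 - d3 - d4
  have h4 : (k : ℝ) = 5 := by
    rcases mul_eq_zero.mp h3 with h | h
    · linarith
    · exact absurd (sub_eq_zero.mp h) hab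
  exact_mod_cast h4

theorem result : ∃ (n : ℕ) (G : SimpleGraph (Fin n)), G.Connected ∧ IsLeast (counts G) 2 ∧
    ∃ k r : ℕ, IsLeast (mbSet G) k ∧ IsLeast (psdRanks G) r ∧ r < k := by
  have hA := inS_cast G M (by decide +kernel) (by decide +kernel)
  have hs : Real.sqrt 18 * Real.sqrt 18 = 18 := Real.mul_self_sqrt (by norm_num)
  have hp : 0 < Real.sqrt 18 := by positivity
  have h2 : (Int.castRingHom ℝ).mapMatrix M * (Int.castRingHom ℝ).mapMatrix M =
      (Real.sqrt 18 + -Real.sqrt 18) • (Int.castRingHom ℝ).mapMatrix M -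
        (Real.sqrt 18 * -Real.sqrt 18) • 1 := by
    have h : M * M = (18 : ℤ) • 1 := by decide +kernel
    rw [← map_mul, h, map_zsmul, map_one, mul_neg, hs]
    ext i j; simp
  have ht : ((Int.castRingHom ℝ).mapMatrix M).trace = 0 := by
    have h : M.trace = 0 := by decide +kernel
    have := congrArg (Int.cast : ℤ → ℝ) h
    simpa [trace] using this
  have hne : (psdRanks G).Nonempty ∧ sInf (psdRanks G) ≤ 4 := by
    have hm : ((W.map (Int.cast : ℤ → ℝ))ᵀ * W.map (Int.cast : ℤ → ℝ)).rank ∈ psdRanks G := by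
      refine ⟨_, ?_, ?_, rfl⟩
      · have := inS_cast G (Wᵀ * W) (by decide +kernel) (by decide +kernel)
        have e : (Int.castRingHom ℝ).mapMatrix (Wᵀ * W) =
            (W.map (Int.cast : ℤ → ℝ))ᵀ * W.map (Int.cast : ℤ → ℝ) := by
          ext i j; simp [Matrix.mul_apply]
        rwa [e] at this
      · simpa using posSemidef_conjTranspose_mul_self (W.map (Int.cast : ℤ → ℝ))
    exact ⟨⟨_, hm⟩, (Nat.sInf_le hm).trans ((rank_mul_le_right _ _).trans (rank_le_height _))⟩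
  refine ⟨10, G, ?_, isLeast_of_quad G 0 1 (by decide +kernel) hA _ _ h2, 5, sInf (psdRanks G),
    ⟨⟨by norm_num, by norm_num, _, hA, _, _, by linarith,
      charpoly_of_quad hA.1 _ _ (by linarith) h2 5 (by norm_num) (by rw [ht]; push_cast; ring)⟩,
      fun k hk => (forced k (by have := hk.2.1; omega) hk.2.2).ge⟩,
    ⟨Nat.sInf_mem hne.1, fun r hr => Nat.sInf_le hr⟩, by have := hne.2; omega⟩
  have h : ∀ x, x = 0 ∨ G.Adj 0 x ∨ ∃ y, G.Adj 0 y ∧ G.Adj y x := by decide +kernel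
  have k : ∀ x, G.Reachable 0 x := by
    intro x
    rcases h x with rfl | h | ⟨y, h1, h2⟩
    · rfl
    · exact h.reachable
    · exact h1.reachable.trans h2.reachable
  exact ⟨fun x y => (k x).symm.trans (k y)⟩

end Pool.Agent.Results.MP_558aee_co.Gap
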